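import Pool.Agent.Y17.G.Defs
import Pool.Agent.Z700.Defs3

/-!
# Twists of `X_0(14)` by `m > 0`: any number of doubly inert primes

Project Z705, the positive half of Z17G (`Pool.Agent.Y17.G`). The class of sets `A` is the class `Cl` of
type `0`; the definite side counts vectors of norm `3 m`, `m = pr A`, with the weight `chv`. Most
statements are about a natural number `m` (`Ok m`) and a square root `β` of `- 3 m` modulo `7`.
-/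

set_option autoImplicit false

namespace Pool.Agent.Z705

open Finset
open Pool.Agent.Z700 (V3 vec cp cp7 fac pr chi3 chv Ln n0 ep sgl od X2 Yd lres xres Fp un ps3)
open Pool.Agent.Z701 (wt)
open Pool.Agent.Y17.N (Sp)
open Pool.Agent.Y17.G (In sp inn i3 i5 Cl Ty adm ex bt ei Cond FixR)

noncomputable section

/-- the numbers `m`; the norms are `3 m` -/
def Ok (m : ℕ) : Prop :=
  Squarefree m ∧ m % 8 = 1 ∧ ¬ 3 ∣ m ∧ (m % 7 = 1 ∨ m % 7 = 2 ∨ m % 7 = 4)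

/-- the square roots of `- 3 m` modulo `7` -/
def Bt (m : ℕ) (β : ZMod 7) : Prop := β ^ 2 = -(3 * (m : ZMod 7))

/-- the Gross sum -/
def W3 (m : ℕ) (β : ZMod 7) : ℤ := ∑ v ∈ (vec (3 * (m : ℤ))).filter fun v => Ln n0 β v, chv v

/-- SG: dependence of the sums on the line and the orientation -/
def S_SG : Prop := ∀ (m : ℕ) (β : ZMod 7), Ok m → Bt m β → 1 < m → ∀ n : Fin 3 → ZMod 7, n ≠ 0 →
  n 0 ^ 2 + n 1 ^ 2 + n 2 ^ 2 = 0 → ∀ ε : ℤ, (ε = 1 ∨ ε = -1) →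
  2 * Pool.Agent.Z700.Sg (3 * (m : ℤ)) n β ε = sgl n * W3 m β

/-- the pairs for which the bilinear identity is used -/
def PairOK (m1 m2 : ℕ) (β1 β2 : ZMod 7) : Prop :=
  Ok m1 ∧ Ok m2 ∧ Bt m1 β1 ∧ Bt m2 β2 ∧ (m1 = 1 → β1 = 2) ∧ (m2 = 1 → β2 = 2) ∧
  (Nat.Coprime m1 m2 ∨ (m1 = m2 ∧ β1 = β2)) ∧ (1 < m1 ∨ 1 < m2)

/-- the discriminant attached to `b` -/
def dm (m1 m2 : ℕ) (b : ℤ) : ℕ := (9 * (m1 : ℤ) * (m2 : ℤ) - b ^ 2).toNat

/-- the arithmetic side of the bilinear identity -/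
def RM (m1 m2 : ℕ) (ρ : ZMod 7) : ℤ :=
  ∑ b ∈ (Ioo (-(9 * (m1 : ℤ) * (m2 : ℤ))) (9 * (m1 : ℤ) * (m2 : ℤ))).filter fun b : ℤ =>
    b % 4 = 1 ∧ (b : ZMod 7) = ρ ∧ 0 < dm m1 m2 b,
    wt m1 m2 b * Pool.Agent.Z700.loc (3 * m1) (dm m1 m2 b)

/-- the bilinear identity -/
def S_BIL : Prop := ∀ (m1 m2 : ℕ) (β1 β2 : ZMod 7), PairOK m1 m2 β1 β2 →
  W3 m1 β1 * W3 m2 β2 = 6 * RM m1 m2 (-(β1 * β2))

/-- the weighted number of the pairs with a common line -/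
def DD (m1 m2 : ℕ) (β1 β2 : ZMod 7) (b : ℤ) : ℤ :=
  Pool.Agent.Z700.DD (3 * (m1 : ℤ)) (3 * (m2 : ℤ)) β1 β2 b

/-- BIL1: the product of two Gross sums as a sum over pairs of vectors -/
def S_BIL1 : Prop := ∀ (m1 m2 : ℕ) (β1 β2 : ZMod 7), PairOK m1 m2 β1 β2 →
  4 * (W3 m1 β1 * W3 m2 β2) =
    ∑ b ∈ (Ioo (-(9 * (m1 : ℤ) * (m2 : ℤ))) (9 * (m1 : ℤ) * (m2 : ℤ))).filter
      fun b : ℤ => b % 4 = 1, DD m1 m2 β1 β2 b

/-- BIL2A: weights and coincidences -/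
def S_BIL2A : Prop := ∀ (m1 m2 : ℕ) (β1 β2 : ZMod 7), PairOK m1 m2 β1 β2 → ∀ b : ℤ,
  ((3 : ℤ) ∣ b → m1 % 3 = m2 % 3) →
  2 * DD m1 m2 β1 β2 b =
    if (b : ZMod 7) = -(β1 * β2) then
      wt m1 m2 b * (cp (3 * (m1 : ℤ)) b (3 * (m2 : ℤ)) +
        cp7 (3 * (m1 : ℤ)) b (3 * (m2 : ℤ)) β1 β2) else 0

/-- CAN: cancellation if `3 ∣ b` and `m1`, `m2` are different modulo `3` -/
def S_CAN : Prop := ∀ (m1 m2 : ℕ) (β1 β2 : ZMod 7), PairOK m1 m2 β1 β2 → ∀ b : ℤ, b % 4 = 1 →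
  (3 : ℤ) ∣ b → m1 % 3 ≠ m2 % 3 → DD m1 m2 β1 β2 b = 0

/-- BIL2B: evaluation of the counts -/
def S_BIL2B : Prop := ∀ (m1 m2 : ℕ) (β1 β2 : ZMod 7), PairOK m1 m2 β1 β2 → ∀ b : ℤ, b % 4 = 1 →
  (b : ZMod 7) = -(β1 * β2) →
  ((cp (3 * (m1 : ℤ)) b (3 * (m2 : ℤ)) +
    cp7 (3 * (m1 : ℤ)) b (3 * (m2 : ℤ)) β1 β2 : ℕ) : ℤ) =
    if 0 < dm m1 m2 b then 48 * Pool.Agent.Z700.loc (3 * m1) (dm m1 m2 b) else 0

theorem bil_of (h1 : S_BIL1) (h2 : S_BIL2A) (h3 : S_CAN) (h4 : S_BIL2B) : S_BIL := by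
  classical
  intro m1 m2 β1 β2 hOK
  have k1 := h1 m1 m2 β1 β2 hOK
  have k2 : ∀ b ∈ (Ioo (-(9 * (m1 : ℤ) * (m2 : ℤ)))
      (9 * (m1 : ℤ) * (m2 : ℤ))).filter fun b : ℤ => b % 4 = 1,
      DD m1 m2 β1 β2 b = if (b : ZMod 7) = -(β1 * β2) ∧ 0 < dm m1 m2 b then
      24 * (wt m1 m2 b * Pool.Agent.Z700.loc (3 * m1) (dm m1 m2 b)) else 0 := by
    intro b hb
    have hb4 : b % 4 = 1 := (Finset.mem_filter.1 hb).2
    by_cases hc : (3 : ℤ) ∣ b → m1 % 3 = m2 % 3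
    · have k3 := h2 m1 m2 β1 β2 hOK b hc
      by_cases hb7 : (b : ZMod 7) = -(β1 * β2)
      · have k4 := h4 m1 m2 β1 β2 hOK b hb4 hb7
        rw [if_pos hb7] at k3
        push_cast at k4
        rw [k4] at k3
        by_cases hD : 0 < dm m1 m2 b
        · rw [if_pos ⟨hb7, hD⟩]
          rw [if_pos hD] at k3
          linarith
        · rw [if_neg (fun h => hD h.2)]
          rw [if_neg hD] at k3
          linarith
      · rw [if_neg (fun h => hb7 h.1)]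
        rw [if_neg hb7] at k3
        linarith
    · push Not at hc
      obtain ⟨c1, c2⟩ := hc
      rw [h3 m1 m2 β1 β2 hOK b hb4 c1 c2]
      have h0 : wt m1 m2 b = 0 := by
        unfold wt
        rw [if_pos (Int.emod_eq_zero_of_dvd c1), if_neg c2]
      rw [h0]
      simp
  rw [Finset.sum_congr rfl k2, ← Finset.sum_filter, ← Finset.mul_sum, Finset.filter_filter] at k1
  have k3 : RM m1 m2 (-(β1 * β2)) = ∑ b ∈ (Ioo (-(9 * (m1 : ℤ) * (m2 : ℤ)))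
      (9 * (m1 : ℤ) * (m2 : ℤ))).filter
      fun b : ℤ => b % 4 = 1 ∧ (b : ZMod 7) = -(β1 * β2) ∧ 0 < dm m1 m2 b,
      wt m1 m2 b * Pool.Agent.Z700.loc (3 * m1) (dm m1 m2 b) := rfl
  rw [← k3] at k1
  linarith

/-! ### the sum over the genus characters -/

/-- GENb: the sum over all admissible factorizations for a fixed `b` -/
def S_GENb : Prop := ∀ A : Finset ℕ, Cl A → Ty 0 A → A.Nonempty → ∀ b : ℤ, Odd b →
  ∀ D : ℕ, 0 < D → (D : ℤ) = 9 * (pr A : ℤ) - b ^ 2 → Odd (D.factorization 2) →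
  ∃ n : ℤ, ∑ D1 ∈ adm 0 A, wt (pr D1) (pr (A \ D1)) b *
      ∏ l ∈ (D.primeFactors.erase 2).erase 7, fac (3 * pr D1) D l = 2 ^ ex A * n ∧
    (Odd (D.factorization 7) →
      (Odd n ↔ (¬ (3 : ℤ) ∣ b ∧ ∃ y : ℕ, od D = y ^ 2 ∧ Cond y A)))

/-- GEN: the sum over all admissible factorizations -/
def S_GEN : Prop := ∀ A : Finset ℕ, Cl A → Ty 0 A → A.Nonempty → ∃ N : ℤ,
  ∑ D1 ∈ adm 0 A, RM (pr D1) (pr (A \ D1)) (-(4 * bt A)) = 2 ^ ex A * N ∧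
  (Odd N ↔ Odd (FixR (-(4 * bt A)) A).card)

/-- IND: the parity of the Gross sum -/
def S_IND : Prop := ∀ A : Finset ℕ, Cl A → Ty 0 A → A.Nonempty →
  ∃ y : ℤ, W3 (pr A) (2 * bt A) = 3 * 2 ^ ((sp A).card + (inn A).card / 2) * y ∧
    (Odd y ↔ Odd (Yd lres (fun p => xres p + ei A p) (sp A)))

/-! ### the indefinite side -/

/-- C1A: the forms and the cusps as factorizations -/
def S_C1A : Prop := ∀ m : ℕ, Ok m → 1 < m →
  ∑ u ∈ un m, jacobiSym u m * Fp u m =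
    -2 * ∑ T ∈ (range (3 * m)).filter (fun T => Odd T ∧ 7 ∣ T),
      ∑ a ∈ (3 * m - T).divisors.filter (2 ∣ ·), ∑ a' ∈ T.divisors.filter (7 ∣ ·),
        ps3 a a' ((3 * m - T) / a) (T / a') *
          ∑ u ∈ (un m).filter (fun u : ℕ => (m : ℤ) ∣ (a : ℤ) * (u : ℤ) + ((T / a' : ℕ) : ℤ) ∧
            (m : ℤ) ∣ (a' : ℤ) * (u : ℤ) - (((3 * m - T) / a : ℕ) : ℤ)), jacobiSym u m

/-- the local weight at `p` -/
def psg (p a a' Y X : ℕ) : ℤ := if p ∣ a ∧ p ∣ X then jacobiSym ((a' * Y : ℕ) : ℤ) p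
  else jacobiSym (-((a * X : ℕ) : ℤ)) p

/-- C1B: the character sum over the cusps for a given matrix of determinant `d m` -/
def S_C1B : Prop := ∀ m d : ℕ, Squarefree m → Odd m → ∀ a a' X Y : ℕ,
  a * Y + a' * X = d * m →
  ∑ u ∈ (un m).filter (fun u : ℕ => (m : ℤ) ∣ (a : ℤ) * (u : ℤ) + (X : ℤ) ∧
    (m : ℤ) ∣ (a' : ℤ) * (u : ℤ) - (Y : ℤ)), jacobiSym u m = ∏ p ∈ m.primeFactors, psg p a a' Y X

/-- the divisor sum of the indefinite side -/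
def WM (m T : ℕ) : ℤ :=
  ∑ a ∈ (3 * m - T).divisors.filter (2 ∣ ·), ∑ a' ∈ T.divisors.filter (7 ∣ ·),
    ps3 a a' ((3 * m - T) / a) (T / a') *
      ∏ p ∈ m.primeFactors, psg p a a' ((3 * m - T) / a) (T / a')

/-- C1: the character sum of `Fp` as a sum of divisor sums -/
def S_C1 : Prop := ∀ m : ℕ, Ok m → 1 < m →
  ∑ u ∈ un m, jacobiSym u m * Fp u m =
    -2 * ∑ T ∈ (range (3 * m)).filter (fun T => Odd T ∧ 7 ∣ T), WM m T

theorem c1_of (h1 : S_C1A) (h2 : S_C1B) : S_C1 := by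
  intro m hm hne
  rw [h1 m hm hne]
  congr 1
  refine Finset.sum_congr rfl fun T hT => ?_
  rw [WM]
  refine Finset.sum_congr rfl fun a ha => ?_
  refine Finset.sum_congr rfl fun a' ha' => ?_
  congr 1
  have hT1 : T < 3 * m := Finset.mem_range.1 (Finset.mem_filter.1 hT).1
  have h3 : a ∣ 3 * m - T := Nat.dvd_of_mem_divisors (Finset.mem_filter.1 ha).1
  have h4 : a' ∣ T := Nat.dvd_of_mem_divisors (Finset.mem_filter.1 ha').1
  have h8 := hm.2.1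
  refine h2 m 3 hm.1 (by rw [Nat.odd_iff]; omega) a a' (T / a') ((3 * m - T) / a) ?_
  rw [Nat.mul_div_cancel' h3, Nat.mul_div_cancel' h4]
  omega

/-- C2: evaluation of the divisor sums -/
def S_C2 : Prop := ∀ m : ℕ, Ok m → 1 < m → ∀ T : ℕ, Odd T → 7 ∣ T → T < 3 * m →
  WM m T = wt m m (3 * (m : ℤ) - 2 * T) * Pool.Agent.Z700.loc (3 * m) (4 * (3 * m - T) * T)

/-- DIAG: the character sum of `Fp` is a square up to a factor -/
def S_DIAG : Prop := ∀ (m : ℕ) (β : ZMod 7), Ok m → 1 < m → Bt m β →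
  -3 * ∑ u ∈ un m, jacobiSym u m * Fp u m = W3 m β ^ 2

end

end Pool.Agent.Z705
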