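import Pool.Agent.Y17.N.Main
import Pool.Agent.Y17.N.Mat
import Pool.Agent.Y687.K4.MainT
import Pool.Agent.Z705.Defs
import Pool.Agent.Z704.Main

/-!
# The parity condition for general sets of doubly inert primes
-/

set_option autoImplicit false
set_option linter.style.haveILetI false

open Finset

namespace Pool.Agent.Z705

open Pool.Agent.Z700 (pr Yd lres xres xrt)
open Pool.Agent.Y687 (InertT qs cnt SS_facts cnt_E14 cnt_twistD)
open Pool.Agent.Y687.N (RtZ xrZ RtZ_iff sp_sq isSquare_mul_iff)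
open Pool.Agent.Y17.N (Sp eQ)
open Pool.Agent.Y17.G (sp inn i3 i5 ei Cl Ty)

/-- the number of points modulo eight -/
theorem rtz_iff {p : ℕ} {D : ℤ} (hp : Sp p) (h4 : D % 4 = 1) (hpq : ¬ p ∣ D.natAbs) :
    RtZ D p ↔ ¬ 8 ∣ cnt (5805 * D ^ 2) (-285714 * D ^ 3) p + 1 := by
  haveI : Fact p.Prime := ⟨hp.1⟩
  have p8 := hp.2.1
  have p3 : p ≠ 3 := by rintro rfl; omega
  have hm : ((D : ℤ) : ZMod p) ≠ 0 := by
    intro h
    rw [ZMod.intCast_zmod_eq_zero_iff_dvd] at h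
    exact hpq (Int.natCast_dvd.1 h)
  obtain ⟨-, k, hk⟩ := SS_facts p hp.1 hp.2.1 hp.2.2
  have h1 := cnt_twistD 5805 (-285714) (D := D) h4 p (by omega) hpq
  have h2 := cnt_E14 p hp.1 (by omega) p3
  have h3' := Pool.Agent.Y655.Z7.t_RTE p hp.1 hp.2.1 hp.2.2
  rw [Pool.Agent.Y614.Z.NE_eq] at h3'
  have h3 : Pool.Agent.Y687.Rt p 1 ↔ ¬ 8 ∣ cnt 5805 (-285714) p + 1 := h3'
  have h4' := RtZ_iff hp hm
  have h5 : quadraticChar (ZMod p) ((D : ℤ) : ZMod p) = jacobiSym p D.natAbs := by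
    have h6 : quadraticChar (ZMod p) ((D : ℤ) : ZMod p) = legendreSym p D := rfl
    rw [h6, jacobiSym.legendreSym.to_jacobiSym]
    exact Pool.Agent.Y687.jacD h4 (by omega)
  have h6 := quadraticChar_one_iff_isSquare hm
  rw [h5] at h6
  rw [h4', h3, ← h6]
  have hj : jacobiSym p D.natAbs = 1 ∨ jacobiSym p D.natAbs = -1 := by
    refine jacobiSym.eq_one_or_neg_one ?_
    rw [Int.gcd_natCast_natCast]
    exact (Nat.Prime.coprime_iff_not_dvd hp.1).2 hpq
  rcases hj with hj | hj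
  · rw [hj] at h1
    rw [hj]
    simp only [iff_true]
    omega
  · rw [hj] at h1
    rw [hj]
    have e1 : ¬ ((-1 : ℤ) = 1) := by norm_num
    simp only [e1, iff_false, not_not]
    omega

theorem qs_sq {p q : ℕ} (hp : Sp p) (hq : q.Prime) (hqp : q ≠ p) :
    ((qs q : ℤ) : ZMod p) ≠ 0 ∧ (IsSquare ((qs q : ℤ) : ZMod p) ↔ Even (eQ q p)) := by
  haveI : Fact p.Prime := ⟨hp.1⟩
  have hq0 : (q : ZMod p) ≠ 0 := by
    intro h0
    rw [ZMod.natCast_eq_zero_iff] at h0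
    exact hqp ((Nat.prime_dvd_prime_iff_eq hp.1 hq).1 h0).symm
  obtain ⟨-, -, -, hi, -⟩ := sp_sq hp
  have h1 : IsSquare ((q : ℤ) : ZMod p) ↔ Even (eQ q p) := by
    unfold eQ
    by_cases hs : IsSquare ((q : ℤ) : ZMod p)
    · rw [if_neg]
      · simpa using hs
      · rw [← jacobiSym.legendreSym.to_jacobiSym,
          (legendreSym.eq_one_iff p (by push_cast; exact hq0)).2 hs]
        norm_num
    · rw [if_pos]
      · simpa using hs
      · rw [← jacobiSym.legendreSym.to_jacobiSym]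
        exact (legendreSym.eq_neg_one_iff p).2 hs
  unfold qs
  split_ifs with h
  · exact ⟨by push_cast; exact hq0, h1⟩
  · refine ⟨by push_cast; exact neg_ne_zero.2 hq0, ?_⟩
    rw [← h1]
    have e : (((-(q : ℤ) : ℤ)) : ZMod p) = (-1) * (q : ZMod p) := by push_cast; ring
    rw [e, isSquare_mul_iff (neg_ne_zero.2 one_ne_zero) hq0]
    push_cast
    simp [hi]

/-- `Y687.DD T` modulo a split prime -/
theorem DD_sq {p : ℕ} (hp : Sp p) {T : Finset ℕ} (hT : ∀ q ∈ T, q.Prime ∧ q ≠ p) :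
    ((Y687.DD T : ℤ) : ZMod p) ≠ 0 ∧
      (IsSquare ((Y687.DD T : ℤ) : ZMod p) ↔ Even (∑ r ∈ T, eQ r p)) := by
  haveI : Fact p.Prime := ⟨hp.1⟩
  classical
  unfold Y687.DD
  induction T using Finset.induction_on with
  | empty => simp
  | insert q T hq ih =>
    obtain ⟨i1, i2⟩ := ih fun r hr => hT r (Finset.mem_insert_of_mem hr)
    obtain ⟨k1, k2⟩ := hT q (Finset.mem_insert_self _ _)
    obtain ⟨j1, j2⟩ := qs_sq hp k1 k2
    rw [Finset.prod_insert hq, Finset.sum_insert hq]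
    push_cast at i1 i2 j1 j2 ⊢
    refine ⟨mul_ne_zero j1 i1, ?_⟩
    rw [isSquare_mul_iff j1 i1, i2, j2, Int.even_add]

theorem inert_ne {p q : ℕ} (hp : Sp p) (hq : InertT q) : q ≠ p := by
  rintro rfl
  have h1 := hp.2.1
  have h2 := hq.2.1
  omega

/-- the diagonal parts agree modulo two -/
theorem diag_iff {p : ℕ} (hp : Sp p) {T : Finset ℕ} (hT : ∀ q ∈ T, InertT q) :
    Odd (xrZ (Y687.DD T) p) ↔ Odd (xres p + ∑ r ∈ T, eQ r p) := by
  obtain ⟨h1, h2⟩ := DD_sq hp (T := T) fun q hq => ⟨(hT q hq).1, inert_ne hp (hT q hq)⟩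
  have h3 := RtZ_iff hp h1
  rw [h2] at h3
  rw [Pool.Agent.Z701.x_eq Pool.Agent.Z700.f_SYM Pool.Agent.Z701.f_DIAG Pool.Agent.Z701.f_IND
      Pool.Agent.Y655.Z7.t_RTE hp]
  have a1 : Odd (xrZ (Y687.DD T) p) ↔ RtZ (Y687.DD T) p := by
    unfold xrZ
    split_ifs with h <;> simp [h]
  have b1 : Odd (xrt p) ↔ Pool.Agent.Y700.Rt p 1 := by
    unfold Pool.Agent.Z700.xrt
    split_ifs with h <;> simp [h]
  rw [a1, h3, Int.odd_add, b1]
  exact Iff.rfl

/-- facts on the union of a set of split and a set of doubly inert primes -/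
theorem union_facts {P T : Finset ℕ} (hP : ∀ p ∈ P, Sp p) (hT : ∀ q ∈ T, InertT q) :
    sp (P ∪ T) = P ∧ inn (P ∪ T) = T ∧ i3 (P ∪ T) = T.filter (fun q => q % 8 = 3) ∧
      i5 (P ∪ T) = T.filter (fun q => q % 8 = 5) ∧ pr (P ∪ T) = pr P * pr T ∧ Disjoint P T := by
  have hd : Disjoint P T := by
    rw [Finset.disjoint_left]
    intro p hp hq
    exact inert_ne (hP p hp) (hT p hq) rfl
  refine ⟨?_, ?_, ?_, ?_, ?_, hd⟩
  · ext p
    unfold sp
    rw [Finset.mem_filter, Finset.mem_union]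
    constructor
    · rintro ⟨h | h, h8⟩
      · exact h
      · have := (hT p h).2.1; omega
    · intro h
      exact ⟨Or.inl h, (hP p h).2.1⟩
  · ext p
    unfold inn
    rw [Finset.mem_filter, Finset.mem_union]
    constructor
    · rintro ⟨h | h, h8⟩
      · exact absurd (hP p h).2.1 h8
      · exact h
    · intro h
      exact ⟨Or.inr h, by have := (hT p h).2.1; omega⟩
  · ext p
    unfold i3
    rw [Finset.mem_filter, Finset.mem_filter, Finset.mem_union]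
    constructor
    · rintro ⟨h | h, h8⟩
      · have := (hP p h).2.1; omega
      · exact ⟨h, h8⟩
    · rintro ⟨h, h8⟩
      exact ⟨Or.inr h, h8⟩
  · ext p
    unfold i5
    rw [Finset.mem_filter, Finset.mem_filter, Finset.mem_union]
    constructor
    · rintro ⟨h | h, h8⟩
      · have := (hP p h).2.1; omega
      · exact ⟨h, h8⟩
    · rintro ⟨h, h8⟩
      exact ⟨Or.inr h, h8⟩
  · unfold pr
    exact Finset.prod_union hd

/-- two forms of the determinant condition -/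
theorem Yd_iff {P T : Finset ℕ} (hP : ∀ p ∈ P, Sp p) (hT : ∀ q ∈ T, InertT q) :
    Odd (Yd lres (xrZ (Y687.DD T)) P) ↔
      Odd (Yd lres (fun p => xres p + ei (P ∪ T) p) (sp (P ∪ T))) := by
  obtain ⟨h1, h2, -⟩ := union_facts hP hT
  rw [h1]
  refine Pool.Agent.Z701.Yd_mod2 fun p hp => ?_
  rw [diag_iff (hP p hp) hT]
  unfold ei
  rw [h2]

/-- two forms of the determinant condition, `3 ∈ T` -/
theorem Yd_iff3 {P T : Finset ℕ} (hP : ∀ p ∈ P, Sp p) (hT : ∀ q ∈ T, InertT q) (h3 : 3 ∈ T) :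
    Odd (Yd lres (xrZ (Y687.DD T)) P) ↔
      Odd (Yd lres (fun p => xres p + eQ 3 p + ei (P ∪ T.erase 3) p) (sp (P ∪ T.erase 3))) := by
  obtain ⟨h1, h2, -⟩ := union_facts hP (T := T.erase 3) fun q hq => hT q (Finset.mem_of_mem_erase hq)
  rw [h1]
  refine Pool.Agent.Z701.Yd_mod2 fun p hp => ?_
  rw [diag_iff (hP p hp) hT]
  unfold ei
  rw [h2, ← Finset.add_sum_erase T _ h3, add_assoc]

theorem prJ8 (P : Finset ℕ) (hP : ∀ p ∈ P, Sp p) : pr P % 8 = 1 :=
  Pool.Agent.Z702.prJ8 P fun p hp => (hP p hp).2.1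

/-- `Cnd` holds -/
theorem cnd {P T : Finset ℕ} (hP : ∀ p ∈ P, Sp p) (hT : ∀ q ∈ T, InertT q) :
    Pool.Agent.Z704.Cnd (Y687.DD T) P := by
  refine ⟨Y687.DD_mod fun q hq => (hT q hq).odd, hP, ?_,
    Pool.Agent.Y687.inertT_two hT⟩
  obtain ⟨-, -, -, -, h5, -⟩ := union_facts hP hT
  rw [← Int.squarefree_natAbs, Int.natAbs_mul, Int.natAbs_natCast, Y687.DD_natAbs]
  have h6 : pr P * ∏ q ∈ T, q = pr (P ∪ T) := h5.symm
  rw [h6]
  exact Pool.Agent.Z700.pr_sqf fun p hp => by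
    rcases Finset.mem_union.1 hp with h | h
    · exact (hP p h).1
    · exact (hT p h).1

end Pool.Agent.Z705
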