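import Pool.Agent.Y17.G.Main
import Pool.Agent.Z705.Par
import Pool.Agent.Z702.Main

/-!
# The positive twists: the value of the `L`-function at `1`
-/

set_option autoImplicit false
set_option linter.style.haveILetI false

open Finset

namespace Pool.Agent.Z705

open Pool.Agent.TH841.SH.D
open Pool.Agent.Z700 (pr Yd lres xres xrt Fp S_SYM)
open Pool.Agent.Y687 (InertT DD qs SS Symb2 rr mem_rr WB)
open Pool.Agent.Y687.N (RtZ xrZ HypK sp_sq)
open Pool.Agent.Y700 (PC EQ Omega IsL tamProd S_E0 S_TIN S_TSP S_T2 S_T7 S_MIN S_OMEGA)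
open Pool.Agent.W97.MT (II IsGloballyMinimal)
open Pool.Agent.Y17.N (Sp eQ)
open Pool.Agent.Y17.G (In sp inn i3 i5 ei Cl Ty bt bt_sq bt_ne pr_mod8 inn_card pr_sqf cast7 in_facts
  un_facts det_gen)
open Pool.Agent.Z702 (WZ S_COC S_LOT S_COB S_TOR S_TRN S_TORS S_LQ S_LG S_LP S_LIN)

/-! ### the numbers `m` -/

theorem inn_even {B : Finset ℕ} (hB : ∀ p ∈ B, Sp p ∨ In p) (ht : Ty 0 B) :
    Even (inn B).card := by
  rw [inn_card hB, Nat.even_iff]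
  have h1 := ht.1
  have h2 := ht.2
  omega

theorem pr_one {B : Finset ℕ} (hB : ∀ p ∈ B, Sp p ∨ In p) (ht : Ty 0 B) : pr B % 8 = 1 := by
  rw [pr_mod8 hB]
  obtain ⟨a, ha⟩ : ∃ a, (i3 B).card = 2 * a := ⟨(i3 B).card / 2, by have := ht.1; omega⟩
  obtain ⟨b, hb⟩ : ∃ b, (i5 B).card = 2 * b := ⟨(i5 B).card / 2, by have := ht.2; omega⟩
  rw [ha, hb, pow_mul, pow_mul, Nat.mul_mod, Nat.pow_mod, Nat.pow_mod (5 ^ 2)]
  norm_num

theorem bt_zero {B : Finset ℕ} (hB : ∀ p ∈ B, Sp p ∨ In p) (ht : Ty 0 B) :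
    bt B ^ 2 = ((pr B : ℕ) : ZMod 7) := by
  rw [bt_sq hB, (inn_even hB ht).neg_one_pow, one_mul]

theorem ok_pr {A : Finset ℕ} (hA : Cl A) (ht : Ty 0 A) : Ok (pr A) := by
  refine ⟨pr_sqf hA.1, pr_one hA.1 ht, ?_, ?_⟩
  · intro h
    unfold Pool.Agent.Z700.pr at h
    obtain ⟨p, hp, h3⟩ := (Nat.prime_three.prime.dvd_finsetProd_iff _).1 h
    have h4 := (Nat.prime_dvd_prime_iff_eq Nat.prime_three (in_facts (hA.1 p hp)).1).1 h3
    exact hA.2 (h4 ▸ hp)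
  · have key : ∀ x : ZMod 7, ∀ k : ℕ, k < 7 → x ≠ 0 → x ^ 2 = ((k : ℕ) : ZMod 7) →
        k = 1 ∨ k = 2 ∨ k = 4 := by decide
    exact key (bt A) (pr A % 7) (Nat.mod_lt _ (by norm_num)) (bt_ne A)
      (by rw [bt_zero hA.1 ht, ← cast7])

theorem bt_ok {A : Finset ℕ} (hA : Cl A) (ht : Ty 0 A) : Bt (pr A) (2 * bt A) := by
  unfold Bt
  rw [mul_pow, bt_zero hA.1 ht]
  have h7 : (7 : ZMod 7) = 0 := by decide
  linear_combination ((pr A : ℕ) : ZMod 7) * h7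

theorem one_lt {A : Finset ℕ} (hA : ∀ p ∈ A, Sp p ∨ In p) (hne : A.Nonempty) : 1 < pr A := by
  obtain ⟨p, hp⟩ := hne
  have h1 : p ∣ pr A := Finset.dvd_prod_of_mem _ hp
  exact lt_of_lt_of_le (in_facts (hA p hp)).1.one_lt
    (Nat.le_of_dvd (Nat.pos_of_ne_zero (pr_sqf hA).ne_zero) h1)

theorem cop42 {A : Finset ℕ} (hA : Cl A) (ht : Ty 0 A) : Nat.Coprime (pr A) 42 := by
  obtain ⟨-, h8, h3, h7⟩ := ok_pr hA ht
  rw [show (42 : ℕ) = 2 * 3 * 7 by norm_num]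
  refine Nat.Coprime.mul_right (Nat.Coprime.mul_right ?_ ?_) ?_
  · rw [Nat.coprime_comm, Nat.Prime.coprime_iff_not_dvd Nat.prime_two]
    omega
  · rw [Nat.coprime_comm, Nat.Prime.coprime_iff_not_dvd Nat.prime_three]
    exact h3
  · rw [Nat.coprime_comm, Nat.Prime.coprime_iff_not_dvd (by norm_num)]
    omega

/-! ### the character sum -/

/-- the character sum of the symbol is a square, up to the value at zero -/
theorem SS_eq (hS : S_SYM) (hD : S_DIAG) {s : ℚ → ℤ} {a : ℕ → ℤ} (h : Symb2 s a) (h5 : a 5 = 0)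
    {A : Finset ℕ} (hA : Cl A) (ht : Ty 0 A) (hne : A.Nonempty) :
    SS s (pr A) (pr A) = s 0 * W3 (pr A) (2 * bt A) ^ 2 := by
  have hok := ok_pr hA ht
  have h1 := one_lt hA.1 hne
  have hM : 0 < pr A := by omega
  have h14 : Nat.Coprime 14 (pr A) :=
    (Nat.Coprime.coprime_dvd_right (by norm_num) (cop42 hA ht)).symm
  have e1 : SS s (pr A) (pr A) = ∑ u ∈ rr (pr A), (s 0 * jacobiSym (u : ℤ) (pr A) -
      3 * s 0 * (jacobiSym (u : ℤ) (pr A) * Fp u (pr A))) := by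
    unfold SS
    refine Finset.sum_congr rfl fun u hu => ?_
    have hu2 := (mem_rr.1 hu).2
    have hc : IsCoprime (14 * (u : ℤ)) ((pr A : ℕ) : ℤ) := by
      refine IsCoprime.mul_left ?_ ?_
      · exact_mod_cast (Nat.isCoprime_iff_coprime.2 h14)
      · exact Nat.isCoprime_iff_coprime.2 hu2
    have h1 := hS s a h h5 u (pr A) (by exact_mod_cast hM) hc
    have h2 : s (((u : ℕ) : ℚ) / ((pr A : ℕ) : ℚ)) = s 0 * (1 - 3 * Fp u (pr A)) := by
      rw [← h1]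
      push_cast
      rfl
    rw [h2]
    ring
  rw [e1, Finset.sum_sub_distrib, ← Finset.mul_sum, ← Finset.mul_sum,
    Pool.Agent.Z700.sum_jac (fun p hp => (in_facts (hA.1 p hp)).1) hne
      (fun p hp => (in_facts (hA.1 p hp)).2.1)]
  have h3 := hD (pr A) (2 * bt A) hok h1 (bt_ok hA ht)
  have e2 : Pool.Agent.Z700.un (pr A) = rr (pr A) := rfl
  rw [e2] at h3
  linear_combination s 0 * h3

/-- the character sum up to an odd square, and the parity of the root -/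
theorem SS_par (hS : S_SYM) (hD : S_DIAG) (hI : S_IND) {P T : Finset ℕ} (hP : ∀ p ∈ P, Sp p)
    (hT : ∀ q ∈ T, In q) (h3 : 3 ∉ T) (ht : Ty 0 T) (hne : (P ∪ T).Nonempty)
    {s : ℚ → ℤ} {a : ℕ → ℤ} (h : Symb2 s a) (h5 : a 5 = 0) : ∃ y : ℤ,
      SS s (pr (P ∪ T)) (pr (P ∪ T)) = 2 ^ (T.card + 2 * P.card) * ((s 0 * 9) * y ^ 2) ∧
      (Odd y ↔ Odd (Yd lres (xrZ (pr T : ℤ)) P)) := by
  classical
  obtain ⟨hB, esp, einn, e3, e5, epr⟩ := un_facts hP hT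
  have hty : Ty 0 (P ∪ T) := by unfold Ty; rw [e3, e5]; exact ht
  have hA : Cl (P ∪ T) := by
    refine ⟨hB, fun h => ?_⟩
    rcases Finset.mem_union.1 h with h | h
    · have := (hP 3 h).2.1
      omega
    · exact h3 h
  obtain ⟨y, k1, k2⟩ := hI (P ∪ T) hA hty hne
  rw [esp, einn] at k1
  rw [esp, ← det_gen hP hT (Or.inl rfl)] at k2
  refine ⟨y, ?_, k2⟩
  rw [SS_eq hS hD h h5 hA hty hne, k1]
  have hev := inn_even hB hty
  rw [einn] at hev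
  obtain ⟨r, hr⟩ := hev
  have e4 : T.card / 2 = r := by omega
  rw [e4, hr]
  have h4 : (2 : ℤ) ^ (r + r + 2 * P.card) = (2 ^ (P.card + r)) ^ 2 := by
    rw [← pow_mul]
    congr 1
    ring
  rw [h4]
  ring

/-- `DD T` is `± pr T` -/
theorem DD_eq (T : Finset ℕ) : Y687.DD T = (-1) ^ (T.filter fun q => ¬ q % 4 = 1).card * (pr T : ℤ) := by
  classical
  unfold Y687.DD Pool.Agent.Z700.pr
  induction T using Finset.induction_on with
  | empty => simp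
  | insert q T hq ih =>
    rw [Finset.prod_insert hq, Finset.prod_insert hq, ih, Finset.filter_insert]
    unfold Y687.qs
    by_cases h : q % 4 = 1
    · rw [if_pos h, if_neg (not_not.2 h)]
      push_cast
      ring
    · rw [if_neg h, if_pos h, Finset.card_insert_of_notMem (fun h' => hq (Finset.mem_filter.1 h').1),
        pow_succ]
      push_cast
      ring

theorem filt {T : Finset ℕ} (hT : ∀ q ∈ T, In q) : (T.filter fun q => ¬ q % 4 = 1) = i3 T := by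
  unfold i3
  refine Finset.filter_congr fun q hq => ?_
  have := (hT q hq).2.1
  omega

theorem DD_pos {T : Finset ℕ} (hT : ∀ q ∈ T, In q) (h : (i3 T).card % 2 = 0) :
    Y687.DD T = (pr T : ℤ) := by
  rw [DD_eq, filt hT, (Nat.even_iff.2 h).neg_one_pow, one_mul]

theorem DD_neg {T : Finset ℕ} (hT : ∀ q ∈ T, In q) (h : (i3 T).card % 2 = 1) :
    Y687.DD T = -(pr T : ℤ) := by
  rw [DD_eq, filt hT, (Nat.odd_iff.2 h).neg_one_pow, neg_one_mul]

/-- **the weak form for the positive twists** -/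
theorem weak_pos (hS : S_SYM) (hD : S_DIAG) (hI : S_IND) {P T : Finset ℕ} (hP : ∀ p ∈ P, Sp p)
    (hT : ∀ q ∈ T, In q) (h3 : 3 ∉ T) (ht : Ty 0 T) (hne : (P ∪ T).Nonempty)
    (hY : Odd (Yd lres (xrZ (pr T : ℤ)) P)) : WB ((pr P : ℤ) * (pr T : ℤ)) := by
  classical
  obtain ⟨hB, esp, einn, e3, e5, epr⟩ := un_facts hP hT
  have hty : Ty 0 (P ∪ T) := by unfold Ty; rw [e3, e5]; exact ht
  have hA : Cl (P ∪ T) := by
    refine ⟨hB, fun h => ?_⟩
    rcases Finset.mem_union.1 h with h | h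
    · have := (hP 3 h).2.1
      omega
    · exact h3 h
  have hDD := DD_pos hT ht.1
  have hC := cnd hP (T := T) hT
  have hK : HypK (pr T : ℤ) P := by rw [← hDD]; exact hC.hyp (by rw [hDD]; exact hY)
  refine ⟨?_, hK.finite_set⟩
  obtain ⟨s, Op, hOp, hsym, hs⟩ := Pool.Agent.Y687.exists_symb2
  obtain ⟨y, e, hy⟩ := SS_par hS hD hI hP hT h3 ht hne hsym Pool.Agent.Z700.ap5
  have hy0 : y ≠ 0 := by
    rintro rfl
    exact (by decide : ¬ Odd (0 : ℤ)) (hy.2 hY)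
  have hs0 : s 0 ≠ 0 := by
    intro h0
    have := hsym.odd0
    rw [h0] at this
    exact (by decide : ¬ Odd (0 : ℤ)) this
  have h8 := pr_one hB hty
  have h := Pool.Agent.Y687.exists_f_ne (pr (P ∪ T)) (Nat.odd_iff.2 (by omega)) (pr_sqf hB)
    (one_lt hB hne) (by omega) (cop42 hA hty) hOp hs
    (by rw [e]; exact mul_ne_zero (by positivity) (mul_ne_zero (mul_ne_zero hs0 (by norm_num))
      (pow_ne_zero 2 hy0)))
  rw [epr] at h
  push_cast at h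
  exact h

/-- **the formula modulo two for the positive twists** -/
theorem fullP (h1 : S_COC) (h2 : S_LOT) (h3 : S_COB) (h4 : S_TOR) (hq : S_LQ) (hg : S_LG)
    (hp : S_LP) (hn : S_LIN) (hTr : S_TRN) (hTo : S_TORS) (hA : Pool.Agent.Z704.S_SELA)
    (hB : Pool.Agent.Z704.S_SELB)
    (tE : S_E0) (tIN : S_TIN) (tSP : S_TSP) (t2 : S_T2) (t7 : S_T7)
    (tO : S_OMEGA) (tM : S_MIN) (hS : S_SYM) (hD : S_DIAG) (hI : S_IND) {P T : Finset ℕ}
    (hP : ∀ p ∈ P, Sp p) (hT : ∀ q ∈ T, In q) (h3' : 3 ∉ T) (ht : Ty 0 T)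
    (hne : (P ∪ T).Nonempty) (W : WeierstrassCurve ℤ) (hW : W = Y700.WM ((pr P : ℤ) * (pr T : ℤ))) :
    IsGloballyMinimal W ∧ (∃ f, IsL W f) ∧ ∃ y : ℤ,
      (Odd y ↔ (Finite (EQ W).toAffine.Point ∧ ∀ x : Sha (EQ W), x + x = 0 → x = 0)) ∧
      ∀ f, IsL W f → (y ≠ 0 → f 1 ≠ 0) ∧ ∃ w : ℚ, w ≠ 0 ∧ padicValRat 2 w = 0 ∧
        f 1 = (((w : ℝ) * (y : ℝ) ^ 2 * (Omega W * tamProd W /
          (Nat.card (AddCommGroup.torsion (EQ W).toAffine.Point) : ℝ) ^ 2) : ℝ) : ℂ) := by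
  classical
  obtain ⟨hB', esp, einn, e3, e5, epr⟩ := un_facts hP hT
  have hty : Ty 0 (P ∪ T) := by unfold Ty; rw [e3, e5]; exact ht
  have hAA : Cl (P ∪ T) := by
    refine ⟨hB', fun h => ?_⟩
    rcases Finset.mem_union.1 h with h | h
    · have := (hP 3 h).2.1
      omega
    · exact h3' h
  have h8 := pr_one hB' hty
  have m4' : ((pr (P ∪ T) : ℕ) : ℤ) % 4 = 1 := by omega
  have hM0 : ((pr (P ∪ T) : ℕ) : ℤ) ≠ 0 := by omega
  obtain ⟨s, L, Op, Om, hOp, hOm, g2, g3, hLt, hsym, hs⟩ := Pool.Agent.Y700.exists_symb2'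
  obtain ⟨y, e1, hy⟩ := SS_par hS hD hI hP hT h3' ht hne hsym Pool.Agent.Z700.ap5
  have hsqZ : Squarefree ((pr (P ∪ T) : ℕ) : ℤ) := Int.squarefree_natCast.2 (pr_sqf hB')
  obtain ⟨o3, ho3, e6⟩ := Pool.Agent.Y700.tam_gen tE tIN tSP t2 t7 (P := P) (S := T)
    (M := pr (P ∪ T)) (by
      intro q hq
      have h7 := (hP q hq).2.2
      have h8 := (hP q hq).2.1
      haveI : Fact q.Prime := ⟨(hP q hq).1⟩
      exact ⟨(hP q hq).1, by omega, by omega,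
        (Pool.Agent.Y687.sq_seven q (by omega) (by omega)).2 h7⟩) (by
      intro q hq
      have h7 := (hT q hq).2.2
      have h8 := (hT q hq).2.1
      haveI : Fact q.Prime := ⟨(hT q hq).1⟩
      exact ⟨(hT q hq).1, by omega, by omega, (show InertT q from hT q hq).nsq7⟩)
      (by rw [epr]; rfl) (by omega) hsqZ
  have hM2 : 0 < ((pr (P ∪ T) : ℕ) : ℤ) ^ 2 := by positivity
  have hab : (13 * ((pr (P ∪ T) : ℕ) : ℤ)) ^ 2 - 4 * (128 * ((pr (P ∪ T) : ℕ) : ℤ) ^ 2) < 0 := by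
    nlinarith
  obtain ⟨k, hk, a3⟩ := hTo (13 * ((pr (P ∪ T) : ℕ) : ℤ)) (128 * ((pr (P ∪ T) : ℕ) : ℤ) ^ 2)
    (by positivity) hab.ne (Pool.Agent.Z702.ns_b hM0) (Pool.Agent.Z702.ns_ab hM0)
  rw [(Pool.Agent.Z702.trn_WM hTr m4').2.2] at a3
  have h14 : Nat.Coprime (pr (P ∪ T)) 14 :=
    Nat.Coprime.coprime_dvd_right (by norm_num) (cop42 hAA hty)
  have h7 : ¬ (7 : ℤ) ∣ ((pr (P ∪ T) : ℕ) : ℤ) := by
    have := (ok_pr hAA hty).2.2.2
    omega
  obtain ⟨f0, ε, hf0, hε, hv⟩ := Pool.Agent.Y700.value (Nat.odd_iff.2 (by omega)) (pr_sqf hB')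
    (one_lt hB' hne) (by omega) h14 hs
  have hΩ : Omega (Y700.WM ((pr (P ∪ T) : ℕ) : ℤ)) = 2 * Op / Real.sqrt (pr (P ∪ T) : ℕ) := by
    have := tO L Op Om hOp hOm g2 g3 hLt ((pr (P ∪ T) : ℕ) : ℤ) m4' (by omega)
    simpa using this
  have hMR : (0 : ℝ) < ((pr (P ∪ T) : ℕ) : ℝ) := by exact_mod_cast (by omega : 0 < pr (P ∪ T))
  have hεo : Odd ε := by rcases hε with rfl | rfl <;> decide
  obtain ⟨c1, c2, c3⟩ := Pool.Agent.Z704.concl tM m4' hsqZ h7 hf0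
    (V := (ε : ℝ) * (SS s (pr (P ∪ T)) (pr (P ∪ T)) : ℝ)) (Op := Op)
    (r := Real.sqrt (pr (P ∪ T) : ℕ)) hOp.ne' (Real.sqrt_pos.2 hMR).ne' hv hΩ
    (e := T.card + 2 * P.card) (o1 := ε * (s 0 * 9)) (y := y)
    (hεo.mul (hsym.odd0.mul (by decide : Odd (9 : ℤ)))) (by
      rw [e1]
      push_cast
      ring) ho3 e6 hk a3
  have eM : ((pr (P ∪ T) : ℕ) : ℤ) = (pr P : ℤ) * (pr T : ℤ) := by rw [epr]; push_cast; rfl
  rw [eM] at c1 c2 c3
  subst hW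
  refine ⟨c1, c2, y, ?_, c3⟩
  rw [hy]
  have hDD := DD_pos hT ht.1
  have hC := cnd hP (T := T) hT
  rw [hDD] at hC
  exact Pool.Agent.Z704.equiv h1 h2 h3 h4 hq hg hp hn hTr hA hB hC

end Pool.Agent.Z705
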