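import Pool.Agent.Y700.Fin
import Pool.Agent.Y700.Ap
import Pool.Agent.Y687.K4.MainT

/-!
# The number of points of the minimal model and of the short model, integer twisting factor
-/

set_option autoImplicit false
set_option linter.style.haveILetI false

open Finset

namespace Pool.Agent.Z705

open Pool.Agent.Y700 (WM_one affCount_odd)
open Pool.Agent.W97.MT (ap E14 affCount)
open Pool.Agent.Y687 (cnt cnt_twistD cnt_E14)

theorem ap_oddZ {M : ℤ} (hM : M % 4 = 1) (p : ℕ) [Fact p.Prime] (hp : p ≠ 2) (h : ¬ p ∣ M.natAbs) :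
    ap (Y700.WM M) p = jacobiSym p M.natAbs * ap E14 p := by
  have hpp : p.Prime := Fact.out
  have hM0 : (M : ZMod p) ≠ 0 := by
    intro h1
    rw [ZMod.intCast_zmod_eq_zero_iff_dvd] at h1
    exact h (Int.natCast_dvd.1 h1)
  have h5 : quadraticChar (ZMod p) (M : ZMod p) = jacobiSym p M.natAbs := by
    have h6 : quadraticChar (ZMod p) (M : ZMod p) = legendreSym p M := rfl
    rw [h6, jacobiSym.legendreSym.to_jacobiSym]
    exact Pool.Agent.Y687.jacD hM (Nat.odd_iff.1 (hpp.odd_of_ne_two hp))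
  rw [← WM_one]
  unfold ap
  rw [affCount_odd hM p hp, affCount_odd (by norm_num) p hp, ← h5, sub_add_cancel_left,
    sub_add_cancel_left, mul_neg, Finset.mul_sum]
  congr 1
  symm
  refine Fintype.sum_equiv (Equiv.mulLeft₀ (M : ZMod p) hM0) _ _ fun x => ?_
  have h4 : quadraticChar (ZMod p) (M : ZMod p) = quadraticChar (ZMod p) ((M : ZMod p) ^ 3) := by
    rw [pow_succ, map_mul, quadraticChar_sq_one' hM0, one_mul]
  rw [h4, ← map_mul, Equiv.mulLeft₀_apply]
  congr 1
  push_cast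
  ring

theorem cnt_affCountZ {D : ℤ} {p : ℕ} (hp : p.Prime) (h2 : p ≠ 2) (h3 : p ≠ 3) (hm : D % 4 = 1)
    (hpm : ¬ p ∣ D.natAbs) : cnt (5805 * D ^ 2) (-285714 * D ^ 3) p = affCount (Y700.WM D) p := by
  haveI : Fact p.Prime := ⟨hp⟩
  have h4 := cnt_twistD 5805 (-285714) hm p h2 hpm
  rw [Pool.Agent.Y687.cnt_E14 p Fact.out h2 h3, ← ap_oddZ hm p h2 hpm] at h4
  unfold ap at h4
  omega

end Pool.Agent.Z705
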