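import Pool.Agent.Z705.Fin
import Pool.Agent.Y949.Z704.Tam
import Pool.Agent.Z388.Omega
import Pool.Agent.Z388.Val

/-!
# The parts of the fifth stage: the leading term for twists of both signs

Helpers 949 (Tamagawa numbers) and 388 (period, valuation of the leading term).
-/

set_option autoImplicit false

namespace Pool.Agent.Z705

theorem f_TAM : Pool.Agent.Z704.S_TAM := Pool.Agent.Y949.Z704.t_TAM
theorem f_OMEGA : Pool.Agent.Z704.S_OMEGA := Pool.Agent.Z388.t_OMEGA
theorem f_VAL : Pool.Agent.Z704.S_VAL := Pool.Agent.Z388.t_VAL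

end Pool.Agent.Z705
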