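import Pool.Agent.Z705.Par

/-!
# Existence of the doubly inert primes to be added, in each class modulo eight
-/

set_option autoImplicit false
set_option linter.style.haveILetI false

open Finset

namespace Pool.Agent.Z705

open Pool.Agent.Z700 (pr Yd lres xres xrt)
open Pool.Agent.Y687 (InertT)
open Pool.Agent.Y687.N (xrZ)
open Pool.Agent.Y17.N (Sp eQ)

/-- infinitely many primes in a class modulo `56` with given symbols -/
theorem inf_res (F : Finset ℕ) (hF : ∀ p ∈ F, Sp p) (s : ℕ → ℤ)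
    (hs : ∀ p ∈ F, s p = 1 ∨ s p = -1) {r0 : ℕ} (h0 : Nat.Coprime r0 56) :
    {q : ℕ | q.Prime ∧ q ≡ r0 [MOD 56] ∧ ∀ p ∈ F, jacobiSym q p = s p}.Infinite := by
  classical
  have hr : ∀ p : ℕ, ∃ r : ℕ, p ∈ F → jacobiSym r p = s p := by
    intro p
    by_cases hp : p ∈ F
    · obtain ⟨r, hr⟩ := Pool.Agent.Y155.Z701.exists_res (hF p hp) (hs p hp)
      exact ⟨r, fun _ => hr⟩
    · exact ⟨0, fun h => absurd h hp⟩
  choose r hr using hr
  have h56 : 56 ∉ F := fun h => by
    have := (hF 56 h).2.1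
    omega
  have hc56 : ∀ p ∈ F, Nat.Coprime 56 p := by
    intro p hp
    obtain ⟨pp, p8, p7⟩ := hF p hp
    rw [show (56 : ℕ) = 2 ^ 3 * 7 by norm_num]
    refine Nat.Coprime.mul_left (Nat.Coprime.pow_left 3
      ((Nat.coprime_primes Nat.prime_two pp).2 (by omega)))
      ((Nat.coprime_primes (by norm_num) pp).2 (by omega))
  have hpair : Set.Pairwise (↑(insert 56 F) : Set ℕ) (Function.onFun Nat.Coprime id) := by
    intro a ha b hb hab
    simp only [Finset.coe_insert, Set.mem_insert_iff, Finset.mem_coe] at ha hb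
    simp only [Function.onFun, id]
    rcases ha with rfl | ha <;> rcases hb with rfl | hb
    · exact absurd rfl hab
    · exact hc56 b hb
    · exact (hc56 a ha).symm
    · exact (Nat.coprime_primes (hF a ha).1 (hF b hb).1).mpr hab
  have hne : ∀ i ∈ insert 56 F, id i ≠ 0 := by
    intro i hi
    rcases Finset.mem_insert.mp hi with rfl | hi
    · norm_num
    · exact (hF i hi).1.ne_zero
  obtain ⟨n, hn⟩ := Nat.chineseRemainderOfFinset (fun i => if i = 56 then r0 else r i) id
    (insert 56 F) hne hpair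
  simp only [id] at hn
  have hn1 : n ≡ r0 [MOD 56] := by
    have := hn 56 (Finset.mem_insert_self _ _)
    simpa using this
  have hn2 : ∀ p ∈ F, n ≡ r p [MOD p] := by
    intro p hp
    have := hn p (Finset.mem_insert_of_mem hp)
    rwa [if_neg (fun h : p = 56 => h56 (h ▸ hp))] at this
  set N := ∏ i ∈ insert 56 F, i with hN
  have hN0 : N ≠ 0 := Finset.prod_ne_zero_iff.mpr hne
  haveI : NeZero N := ⟨hN0⟩
  have hcop : Nat.Coprime n N := by
    refine Nat.Coprime.prod_right fun i hi => ?_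
    rcases Finset.mem_insert.mp hi with rfl | hi
    · rw [Nat.coprime_iff_gcd_eq_one, hn1.gcd_eq]
      exact h0
    · rw [Nat.coprime_iff_gcd_eq_one, (hn2 i hi).gcd_eq]
      have h1 := hr i hi
      by_contra hg
      have h2 : jacobiSym (r i) i = 0 := by
        rw [jacobiSym.eq_zero_iff]
        exact ⟨(hF i hi).1.ne_zero, by rwa [Int.gcd_natCast_natCast]⟩
      rw [h2] at h1
      rcases hs i hi with h | h <;> rw [h] at h1 <;> norm_num at h1
  have hunit : IsUnit ((n : ℕ) : ZMod N) := by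
    rw [ZMod.isUnit_iff_coprime]
    exact hcop
  refine (Nat.infinite_setOfPred_prime_and_eq_mod hunit).mono ?_
  rintro q ⟨hq, hqn⟩
  rw [ZMod.natCast_eq_natCast_iff] at hqn
  have hdv : ∀ i ∈ insert 56 F, i ∣ N := fun i hi => Finset.dvd_prod_of_mem _ hi
  have hq1 : q ≡ r0 [MOD 56] := (hqn.of_dvd (hdv 56 (Finset.mem_insert_self _ _))).trans hn1
  have hq2 : ∀ p ∈ F, q ≡ r p [MOD p] := fun p hp =>
    (hqn.of_dvd (hdv p (Finset.mem_insert_of_mem hp))).trans (hn2 p hp)
  refine ⟨hq, hq1, ?_⟩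
  intro p hp
  rw [← hr p hp]
  apply jacobiSym.mod_left'
  exact_mod_cast hq2 p hp

/-- in each of the classes `3` and `5` modulo `8` there are infinitely many doubly inert primes which
make the determinant odd -/
theorem exi {P T : Finset ℕ} (hP : ∀ p ∈ P, Sp p) (hT : ∀ q ∈ T, InertT q) {e : ℕ}
    (he : e = 3 ∨ e = 5) :
    {q : ℕ | InertT q ∧ q % 8 = e ∧ q ∉ T ∧ Odd (Yd lres (xrZ (Y687.DD (insert q T))) P)}.Infinite := by
  classical
  obtain ⟨r, hr, hre, hr7⟩ : ∃ r : ℕ, Nat.Coprime r 56 ∧ r % 8 = e ∧ r % 7 = 3 := by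
    rcases he with rfl | rfl
    · exact ⟨3, by norm_num, by norm_num, by norm_num⟩
    · exact ⟨45, by norm_num, by norm_num, by norm_num⟩
  obtain ⟨ε, hε, ho⟩ := Pool.Agent.Y155.Z701.exists_e lres P
    (fun p => xres p + ∑ r ∈ T, eQ r p)
  have hinf := (inf_res P hP (fun p => if ε p = 1 then -1 else 1) (fun p _ => by
    by_cases h1 : ε p = 1
    · right; simp [h1]
    · left; simp [h1]) hr).sdiff (T.finite_toSet)
  refine hinf.mono ?_
  rintro q ⟨⟨hq, hq56, hJ⟩, hqT⟩
  have hqT' : q ∉ T := fun h => hqT (by simpa using h)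
  have hq8 : q % 8 = r % 8 := hq56.of_dvd (by norm_num : 8 ∣ 56)
  have hq7 : q % 7 = r % 7 := hq56.of_dvd (by norm_num : 7 ∣ 56)
  have hI : InertT q := ⟨hq, by omega, by omega⟩
  have hI' : ∀ x ∈ insert q T, InertT x := by
    intro x hx
    rcases Finset.mem_insert.1 hx with rfl | hx
    · exact hI
    · exact hT x hx
  refine ⟨hI, by omega, hqT', ?_⟩
  refine (Pool.Agent.Y155.Z701.yd_mod fun p hp => ?_).1 ho
  rw [diag_iff (hP p hp) hI', Finset.sum_insert hqT']
  have hJp : jacobiSym q p = if ε p = 1 then -1 else 1 := hJ p hp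
  have e4 : eQ q p = ε p := by
    unfold Pool.Agent.Y17.N.eQ
    rw [hJp]
    rcases hε p with h1 | h1
    · rw [h1]; norm_num
    · rw [h1]; norm_num
  rw [e4]
  have : xres p + (ε p + ∑ r ∈ T, eQ r p) = xres p + ∑ r ∈ T, eQ r p + ε p := by ring
  rw [this]

end Pool.Agent.Z705
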