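import Pool.Agent.Z705.Pos
import Pool.Agent.Z705.Exi
import Pool.Agent.Z704.MainN

/-!
# Both signs
-/

set_option autoImplicit false
set_option linter.style.haveILetI false

open Finset

namespace Pool.Agent.Z705

open Pool.Agent.TH841.SH.D
open Pool.Agent.Z700 (pr Yd lres xres xrt Fp S_SYM)
open Pool.Agent.Y687 (InertT qs SS WB cnt)
open Pool.Agent.Y687.N (RtZ xrZ HypK sp_sq)
open Pool.Agent.Y700 (EQ Omega IsL tamProd S_E0 S_TIN S_TSP S_T2 S_T7 S_MIN S_OMEGA)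
open Pool.Agent.W97.MT (II IsGloballyMinimal)
open Pool.Agent.Y17.N (Sp eQ)
open Pool.Agent.Y17.G (In sp inn i3 i5 ei Cl Ty S_IND3G S_INDQG weak_gen exists_gen neg_gen)
open Pool.Agent.Z702 (WZ S_COC S_LOT S_COB S_TOR S_TRN S_TORS S_LQ S_LG S_LP S_LIN)

/-- the condition on the signs -/
def Sgn (T : Finset ℕ) : Prop :=
  (T.filter fun q => q % 8 = 5).card % 2 = 0 ∧ (3 ∈ T → Y687.DD T < 0)

theorem prT_pos {T : Finset ℕ} (hT : ∀ q ∈ T, InertT q) : 0 < (pr T : ℤ) := by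
  have := Pool.Agent.Z700.pr_pos fun q hq => (hT q hq).1
  exact_mod_cast this

/-- the sign of the discriminant -/
theorem sgn_cases {T : Finset ℕ} (hT : ∀ q ∈ T, InertT q) (h : Sgn T) :
    (Ty 0 T ∧ 3 ∉ T ∧ Y687.DD T = (pr T : ℤ)) ∨ (Ty 1 T ∧ Y687.DD T = -(pr T : ℤ)) := by
  obtain ⟨h1, h2⟩ := h
  rcases Nat.mod_two_eq_zero_or_one (i3 T).card with h3 | h3
  · left
    have h4 := DD_pos hT h3
    refine ⟨⟨h3, h1⟩, fun h5 => ?_, h4⟩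
    have h6 := h2 h5
    rw [h4] at h6
    have := prT_pos hT
    omega
  · right
    exact ⟨⟨h3, h1⟩, DD_neg hT h3⟩

/-- **nonvanishing and finiteness, both signs** -/
theorem weak_both (hS : S_SYM) (hD : S_DIAG) (hI : S_IND) (hb : Pool.Agent.Y17.N.S_BIL)
    (ht8 : Pool.Agent.Y17.N.S_T8) (h3 : S_IND3G) (hq : S_INDQG) {P T : Finset ℕ}
    (hP : ∀ p ∈ P, Sp p) (hT : ∀ q ∈ T, InertT q) (hne : (P ∪ T).Nonempty) (hs : Sgn T)
    (hY : Odd (Yd lres (xrZ (Y687.DD T)) P)) : WB ((pr P : ℤ) * Y687.DD T) := by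
  rcases sgn_cases hT hs with ⟨k1, k2, k3⟩ | ⟨k1, k3⟩
  · rw [k3] at hY ⊢
    exact weak_pos hS hD hI hP hT k2 k1 hne hY
  · rw [k3] at hY ⊢
    exact weak_gen hb ht8 h3 hq hP hT k1 hY

/-- **the formula modulo two, both signs** -/
theorem full_both (h1 : S_COC) (h2 : S_LOT) (h3 : S_COB) (h4 : S_TOR) (hq : S_LQ) (hg : S_LG)
    (hp : S_LP) (hn : S_LIN) (hTr : S_TRN) (hTo : S_TORS) (hA : Pool.Agent.Z704.S_SELA)
    (hB : Pool.Agent.Z704.S_SELB)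
    (tE : S_E0) (tIN : S_TIN) (tSP : S_TSP) (t2 : S_T2) (t7 : S_T7)
    (tO : S_OMEGA) (tM : S_MIN) (hON : Pool.Agent.Z704.S_OMEGA) (hV : Pool.Agent.Z704.S_VAL)
    (hTa : Pool.Agent.Z704.S_TAM) (hS : S_SYM) (hD : S_DIAG) (hI : S_IND)
    (hb : Pool.Agent.Y17.N.S_BIL) (ht8 : Pool.Agent.Y17.N.S_T8) (hi3 : S_IND3G) (hiq : S_INDQG)
    {P T : Finset ℕ} (hP : ∀ p ∈ P, Sp p) (hT : ∀ q ∈ T, InertT q) (hne : (P ∪ T).Nonempty)
    (hs : Sgn T) (W : WeierstrassCurve ℤ) (hW : W = Y700.WM ((pr P : ℤ) * Y687.DD T)) :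
    IsGloballyMinimal W ∧ (∃ f, IsL W f) ∧ ∃ y : ℤ,
      (Odd y ↔ (Finite (EQ W).toAffine.Point ∧ ∀ x : Sha (EQ W), x + x = 0 → x = 0)) ∧
      ∀ f, IsL W f → (y ≠ 0 → f 1 ≠ 0) ∧ ∃ w : ℚ, w ≠ 0 ∧ padicValRat 2 w = 0 ∧
        f 1 = (((w : ℝ) * (y : ℝ) ^ 2 * (Omega W * tamProd W /
          (Nat.card (AddCommGroup.torsion (EQ W).toAffine.Point) : ℝ) ^ 2) : ℝ) : ℂ) := by
  rcases sgn_cases hT hs with ⟨k1, k2, k3⟩ | ⟨k1, k3⟩
  · rw [k3] at hW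
    exact fullP h1 h2 h3 h4 hq hg hp hn hTr hTo hA hB tE tIN tSP t2 t7 tO tM hS hD hI hP hT k2 k1
      hne W hW
  · obtain ⟨g, y, e1, e2, e3⟩ := exists_gen hb ht8 hi3 hiq hP hT k1
    obtain ⟨g1, g2, g3, -, -⟩ := neg_gen hP hT k1
    have hC := cnd hP (T := T) hT
    have habs : ((pr P : ℤ) * Y687.DD T).natAbs = pr P * pr T := by
      rw [k3, Int.natAbs_mul, Int.natAbs_neg, Int.natAbs_natCast, Int.natAbs_natCast]
    have hTodd : T.card % 2 = 1 := by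
      have e : inn T = T := by
        unfold inn
        refine Finset.filter_true_of_mem fun q hq => ?_
        have := (hT q hq).2.1
        omega
      have h5 := Pool.Agent.Y17.G.inn_odd (B := T) (fun q hq => Or.inr (hT q hq)) k1
      rw [e, Nat.odd_iff] at h5
      exact h5
    exact Pool.Agent.Z704.fullN h1 h2 h3 h4 hq hg hp hn hTr hTo hA hB tE tIN tSP t2 t7 tM hON hV hTa
      hC (by rw [k3]; have := prT_pos hT; omega) (fun q hq => (hT q hq).1)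
      (Y687.DD_natAbs T) (g := g) (y := y) (a := P.card + T.card / 2) (by rw [habs]; exact e3) e1
      (by omega) (by rw [k3]; exact e2) (by rw [habs]; exact g1.h8) (by rw [habs]; exact g3) W hW

/-- `Ш[2^∞] = 0` -/
theorem sha_inf (hA : Pool.Agent.Z704.S_SELA) (hB : Pool.Agent.Z704.S_SELB) {P : Finset ℕ} {m : ℤ}
    (hC : Pool.Agent.Z704.Cnd m P) (hY : Odd (Yd lres (xrZ m) P)) (n : ℕ)
    (x : Sha (EQ (Y700.WM ((pr P : ℤ) * m)))) (hx : 2 ^ n • x = 0) : x = 0 := by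
  obtain ⟨a1, a2, -⟩ := Pool.Agent.Y700.alg_M (M := (pr P : ℤ) * m) hC.M4
    (fun z h1 h2 h3 => hA m P (hC.hyp hY) z h1 h2 (fun l _ => h3 l))
    (fun z h1 h2 => hB m P (hC.hyp hY) z h1 (fun l _ => by
      have h3 := h2 l
      have e1 : (-2 : ℤ) * (13 * ((pr P : ℤ) * m)) = -26 * ((pr P : ℤ) * m) := by ring
      have e2 : ((13 : ℤ) * ((pr P : ℤ) * m)) ^ 2 - 4 * (128 * ((pr P : ℤ) * m) ^ 2) =
        -343 * ((pr P : ℤ) * m) ^ 2 := by ring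
      rw [e1, e2] at h3
      exact h3))
  exact a1 n x hx

/-! ### the matrix -/

theorem not_dvd_DD {P T : Finset ℕ} (hP : ∀ p ∈ P, Sp p) (hT : ∀ q ∈ T, InertT q) {p : ℕ}
    (hp : p ∈ P) : ¬ p ∣ (Y687.DD T).natAbs := by
  rw [Y687.DD_natAbs]
  intro h
  have h1 := Pool.Agent.Y687.dvd_prod_primes (fun q hq => (hT q hq).1) (hP p hp).1 h
  exact inert_ne (hP p hp) (hT p h1) rfl

theorem DD_mod4 {T : Finset ℕ} (hT : ∀ q ∈ T, InertT q) : Y687.DD T % 4 = 1 :=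
  Y687.DD_mod fun q hq => (hT q hq).odd

/-- the matrix is nonsingular if and only if the determinant is odd -/
theorem mat_iff {P T : Finset ℕ} (hP : ∀ p ∈ P, Sp p) (hT : ∀ q ∈ T, InertT q) {c : ℕ → Prop}
    (hc : ∀ p ∈ P, (c p ↔ 8 ∣ cnt (5805 * (Y687.DD T) ^ 2) (-285714 * (Y687.DD T) ^ 3) p + 1)) :
    (Pool.Agent.Y17.N.matC P c).det ≠ 0 ↔ Odd (Yd lres (xrZ (Y687.DD T)) P) := by
  refine Pool.Agent.Y17.N.matC_iff hP fun p hp => ?_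
  rw [hc p hp, ← rtz_iff (hP p hp) (DD_mod4 hT) (not_dvd_DD hP hT hp)]
  unfold xrZ
  by_cases h : RtZ (Y687.DD T) p
  · rw [if_pos h]; exact ⟨fun _ => h, fun _ => odd_one⟩
  · rw [if_neg h]; exact ⟨fun h' => absurd h' (by decide), fun h' => absurd h' h⟩

end Pool.Agent.Z705
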