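import Pool.Agent.Z705.Small
import Pool.Agent.Z705.C1A
import Pool.Agent.Z702.Fin
import Pool.Agent.Y17.G.Fin
import Pool.Agent.Y100.ZC.SgBil
import Pool.Agent.Y394.Z705.Bil2a
import Pool.Agent.Y394.Z705.Bil2b
import Pool.Agent.Y394.Z705.Can
import Pool.Agent.Y614.Z705.GENb
import Pool.Agent.Y356.ZG.Gen705
import Pool.Agent.Z141.ZE.Ind5
import Pool.Agent.Z363.Z705.C1B
import Pool.Agent.Y576.Z7.C2
import Pool.Agent.Y220.ZD.DIAG
import Pool.Agent.Z363.SELB.Selb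
import Pool.Agent.Y812.Z.Sela

/-!
# The parts of the fifth stage (both signs, any number of doubly inert primes)

Helpers 100, 394, 614, 356, 141, 363, 576, 220, 812, and 17 with helpers 948, 37, 43, 474, 528, 179,
681, 815 for the negative half.
-/

set_option autoImplicit false

namespace Pool.Agent.Z705

theorem f_SG : S_SG := Pool.Agent.Y100.ZC.t_SG Pool.Agent.Z700.t_JAC
theorem f_BIL1 : S_BIL1 := Pool.Agent.Y100.ZC.t_BIL1 f_SG Pool.Agent.Z700.t_SG1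
theorem f_BIL2A : S_BIL2A := Pool.Agent.Y394.Z705.t_BIL2A
theorem f_CAN : S_CAN := Pool.Agent.Y394.Z705.t_CAN Pool.Agent.Z700.f_PC
theorem f_BIL2B : S_BIL2B := Pool.Agent.Y394.Z705.t_BIL2B Pool.Agent.Z700.f_PC
theorem f_BIL : S_BIL := bil_of f_BIL1 f_BIL2A f_CAN f_BIL2B
theorem f_GENb : S_GENb := Pool.Agent.Y614.Z705.t_GENb Pool.Agent.Y17.G.f_ABS1
  Pool.Agent.Y17.G.f_ABS2 Pool.Agent.Y17.G.f_ABS3
theorem f_GEN : S_GEN := Pool.Agent.Y356.ZG.t_GEN f_GENb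
theorem f_IND : S_IND := Pool.Agent.Z141.ZE.t_IND Pool.Agent.Z700.t_SG1 f_BIL f_GEN
  Pool.Agent.Z701.f_FIX0 Pool.Agent.Y17.G.f_F2 Pool.Agent.Y17.G.f_F4 Pool.Agent.Z179.t_TREE
theorem f_C1A : S_C1A := C1A.t_C1A
theorem f_C1B : S_C1B := Pool.Agent.Z363.Z705.t_C1B
theorem f_C1 : S_C1 := c1_of f_C1A f_C1B
theorem f_C2 : S_C2 := Pool.Agent.Y576.Z7.t_C2
theorem f_DIAG : S_DIAG := Pool.Agent.Y220.ZD.t_DIAG f_BIL f_C1 f_C2
theorem f_SELA : Pool.Agent.Z704.S_SELA := Pool.Agent.Y812.Z.t_SELA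
theorem f_SELB : Pool.Agent.Z704.S_SELB := Pool.Agent.Z363.SELB.t_SELB
theorem f_IND3G : Pool.Agent.Y17.G.S_IND3G := Pool.Agent.Y17.G.f_IND3G
theorem f_INDQG : Pool.Agent.Y17.G.S_INDQG := Pool.Agent.Y17.G.f_INDQG

end Pool.Agent.Z705
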