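import Pool.Agent.Z705.Both
import Pool.Agent.Y687.K2.Main2
import Pool.Agent.Z701.Fin

/-!
# At most two split primes
-/

set_option autoImplicit false
set_option linter.style.haveILetI false

open Finset

namespace Pool.Agent.Z705

open Pool.Agent.Z700 (pr Yd lres)
open Pool.Agent.Y687 (InertT WB cnt)
open Pool.Agent.Y687.N (RtZ xrZ)
open Pool.Agent.Y17.N (Sp)

/-- at most one split prime, any doubly inert primes -/
theorem weak_le_one {P T : Finset ℕ} (hP : ∀ p ∈ P, Sp p) (hT : ∀ q ∈ T, InertT q)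
    (hne : (P ∪ T).Nonempty) (hc : P.card ≤ 1) (hY : Odd (Yd lres (xrZ (Y687.DD T)) P)) :
    WB ((pr P : ℤ) * Y687.DD T) := by
  rcases (by omega : P.card = 0 ∨ P.card = 1) with h0 | h1
  · rw [Finset.card_eq_zero] at h0
    subst h0
    have hT' : T.Nonempty := by simpa using hne
    have e : ((pr ∅ : ℕ) : ℤ) * Y687.DD T = Y687.DD T := by
      unfold Pool.Agent.Z700.pr
      simp
    rw [e]
    exact Pool.Agent.Y687.mainI hT hT'
  · obtain ⟨p, rfl⟩ := Finset.card_eq_one.1 h1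
    have hp : Sp p := hP p (Finset.mem_singleton_self p)
    have e : ((pr {p} : ℕ) : ℤ) * Y687.DD T = (p : ℤ) * Y687.DD T := by
      unfold Pool.Agent.Z700.pr
      simp
    rw [e]
    refine Pool.Agent.Y687.mainT hp hT ?_
    rw [← rtz_iff hp (DD_mod4 hT) (not_dvd_DD hP hT (Finset.mem_singleton_self p))]
    rw [Pool.Agent.Z700.Yd_singleton] at hY
    unfold xrZ at hY
    by_contra h
    rw [if_neg h] at hY
    exact absurd hY (by decide)

open Classical in
theorem xrZ_nat (m p : ℕ) : xrZ (m : ℤ) p = if Pool.Agent.Y700.Rt p m then 1 else 0 := by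
  have h : RtZ (m : ℤ) p ↔ Pool.Agent.Y700.Rt p m := by
    unfold RtZ Pool.Agent.Y700.Rt
    push_cast
    rfl
  unfold xrZ
  by_cases h1 : RtZ (m : ℤ) p
  · rw [if_pos h1, if_pos (h.1 h1)]
  · rw [if_neg h1, if_neg (fun h2 => h1 (h.2 h2))]

/-- two split primes, inert primes `5` modulo `8` -/
theorem weak_two {P T : Finset ℕ} (hP : ∀ p ∈ P, Sp p) (hT : ∀ q ∈ T, InertT q)
    (hc : P.card = 2) (h5 : ∀ q ∈ T, q % 8 = 5) (hY : Odd (Yd lres (xrZ (Y687.DD T)) P)) :
    WB ((pr P : ℤ) * Y687.DD T) := by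
  classical
  obtain ⟨p, q, hpq, rfl⟩ := Finset.card_eq_two.1 hc
  have hN : ∀ r ∈ T, Pool.Agent.Z701.Nr r := fun r hr => ⟨(hT r hr).1, h5 r hr, (hT r hr).2.2⟩
  have hD : Y687.DD T = ((pr T : ℕ) : ℤ) := by
    refine DD_pos hT ?_
    have : Pool.Agent.Y17.G.i3 T = ∅ := by
      unfold Pool.Agent.Y17.G.i3
      refine Finset.filter_false_of_mem fun r hr => ?_
      have := h5 r hr
      omega
    rw [this]
    rfl
  have hp : Sp p := hP p (by simp)
  have hq : Sp q := hP q (by simp)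
  rw [hD] at hY ⊢
  have hY' : Odd (Yd lres (Pool.Agent.Z701.xrS T) {p, q}) := by
    have e : xrZ ((pr T : ℕ) : ℤ) = Pool.Agent.Z701.xrS T := by
      funext r
      rw [xrZ_nat]
      unfold Pool.Agent.Z701.xrS
      split_ifs <;> rfl
    rw [← e]
    exact hY
  have hC := (Pool.Agent.Z701.condP_iff Pool.Agent.Z701.f_RTE hP hN).2 hY'
  have h8 := Pool.Agent.Z701.cond_two Pool.Agent.Z701.f_RTE hp hq hpq hN hC
  have h := Pool.Agent.Y687.main2 hpq hp hq hN h8
  have e : ((p * q * ∏ r ∈ T, r : ℕ) : ℤ) = ((pr {p, q} : ℕ) : ℤ) * ((pr T : ℕ) : ℤ) := by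
    unfold Pool.Agent.Z700.pr
    rw [Finset.prod_pair hpq]
    push_cast
    ring
  rw [e] at h
  exact h

end Pool.Agent.Z705
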